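import Pool.Agent.H586.AF.C

/-!
# Project AF, task LP: the one-loop formula from the moments
-/

set_option autoImplicit false
set_option linter.unusedVariables false

open MeasureTheory Matrix Finset Filter Topology

namespace Pool.Agent.H71.AF

open Pool.Agent.H586.AF

noncomputable section

section gen

variable {Ω : Type} [MeasurableSpace Ω] {P : Measure Ω} [IsProbabilityMeasure P]

theorem int_bd {g : Ω → ℝ} (hg : Measurable g) (c : ℝ) (h : ∀ ω, |g ω| ≤ c) : Integrable g P :=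
  Integrable.of_bound hg.aestronglyMeasurable c (Filter.Eventually.of_forall h)

theorem abs_int_le (g h : Ω → ℝ) (hh : Integrable h P) (H : ∀ ω, |g ω| ≤ h ω) :
    |∫ ω, g ω ∂P| ≤ ∫ ω, h ω ∂P := by
  have h1 : ∀ᵐ ω ∂P, ‖g ω‖ ≤ h ω := Filter.Eventually.of_forall fun ω => by
    rw [Real.norm_eq_abs]
    exact H ω
  have h2 := norm_integral_le_of_norm_le hh h1
  rw [Real.norm_eq_abs] at h2
  exact h2

theorem mom (f : Ω → ℝ) (hf : Measurable f) (K M p : ℝ) (hK : 0 ≤ K) (hM : 0 ≤ M)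
    (h0 : ∀ ω, 0 ≤ f ω) (h1 : ∀ ω, f ω ≤ K) (hp : P.real {ω | M < f ω} ≤ p) (j : ℕ) :
    ∫ ω, f ω ^ j ∂P ≤ M ^ j + K ^ j * p := by
  have hs : MeasurableSet {ω | M < f ω} := measurableSet_lt measurable_const hf
  have hi : Integrable (fun ω => f ω ^ j) P := int_bd (hf.pow_const j) (K ^ j) fun ω => by
    rw [abs_of_nonneg (pow_nonneg (h0 ω) j)]
    exact pow_le_pow_left₀ (h0 ω) (h1 ω) j
  have hi1 : Integrable ({ω | M < f ω}.indicator fun _ => K ^ j) P :=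
    (integrable_const (K ^ j)).indicator hs
  have hi2 : Integrable (fun ω => M ^ j + {ω | M < f ω}.indicator (fun _ => K ^ j) ω) P :=
    (integrable_const (M ^ j)).add hi1
  have h2 : ∫ ω, f ω ^ j ∂P ≤ ∫ ω, (M ^ j + {ω | M < f ω}.indicator (fun _ => K ^ j) ω) ∂P := by
    refine integral_mono hi hi2 fun ω => ?_
    show f ω ^ j ≤ M ^ j + {ω | M < f ω}.indicator (fun _ => K ^ j) ω
    by_cases hω : M < f ω
    · rw [Set.indicator_of_mem (by exact hω)]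
      have := pow_le_pow_left₀ (h0 ω) (h1 ω) j
      have := pow_nonneg hM j
      linarith
    · rw [Set.indicator_of_notMem (by exact hω)]
      have := pow_le_pow_left₀ (h0 ω) (not_lt.1 hω) j
      linarith
  have h3 : ∫ ω, (M ^ j + {ω | M < f ω}.indicator (fun _ => K ^ j) ω) ∂P =
      M ^ j + K ^ j * P.real {ω | M < f ω} := by
    rw [integral_add (integrable_const _) hi1, integral_indicator_const _ hs]
    simp [mul_comm]
  rw [h3] at h2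
  have h4 : K ^ j * P.real {ω | M < f ω} ≤ K ^ j * p :=
    mul_le_mul_of_nonneg_left hp (pow_nonneg hK j)
  linarith

end gen

section sums

variable {Λ : Type} [Fintype Λ]

theorem tr2 (C A : Matrix Λ Λ ℝ) (hC : C.IsSymm) :
    (C * A).trace = ∑ p : Λ × Λ, A p.1 p.2 * C p.1 p.2 := by
  rw [Fintype.sum_prod_type]
  simp only [Matrix.trace, Matrix.diag, Matrix.mul_apply]
  rw [Finset.sum_comm]
  refine Finset.sum_congr rfl fun x _ => Finset.sum_congr rfl fun y _ => ?_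
  rw [hC.apply x y]
  ring

theorem tr4 (C B : Matrix Λ Λ ℝ) (hC : C.IsSymm) (hB : Bᵀ = -B) :
    (C * B * C * B).trace = -∑ p : Λ × Λ, ∑ q : Λ × Λ,
      B p.1 p.2 * B q.1 q.2 * (C p.1 q.1 * C p.2 q.2) := by
  have hB' : ∀ i j, B i j = -B j i := by
    intro i j
    have h := congrFun (congrFun hB j) i
    simpa using h
  rw [Finset.sum_comm]
  have e1 : (C * B * C * B).trace = ∑ z, ∑ w, (C * B * C) z w * B w z := by
    simp only [Matrix.trace, Matrix.diag]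
    refine Finset.sum_congr rfl fun z _ => ?_
    exact Matrix.mul_apply
  have e2 : ∀ z w, (C * B * C) z w = ∑ p : Λ × Λ, C z p.1 * B p.1 p.2 * C p.2 w := by
    intro z w
    rw [Matrix.mul_apply, Fintype.sum_prod_type, Finset.sum_comm]
    refine Finset.sum_congr rfl fun y _ => ?_
    rw [Matrix.mul_apply, Finset.sum_mul]
  rw [e1, Fintype.sum_prod_type, ← Finset.sum_neg_distrib]
  refine Finset.sum_congr rfl fun z _ => ?_
  rw [← Finset.sum_neg_distrib]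
  refine Finset.sum_congr rfl fun w _ => ?_
  rw [e2, Finset.sum_mul, ← Finset.sum_neg_distrib]
  refine Finset.sum_congr rfl fun p _ => ?_
  rw [hB' w z, hC.apply p.1 z]
  ring

end sums

section main

variable {Ω : Type} [MeasurableSpace Ω] {P : Measure Ω} [IsProbabilityMeasure P]
  {Λ : Type} [Fintype Λ]

/-- the bilinear forms -/
def Qd (φ : Λ × Fin 3 → Ω → ℝ) (N : Matrix Λ Λ ℝ) (a b : Fin 3) (ω : Ω) : ℝ :=
  ∑ p : Λ × Λ, N p.1 p.2 * (φ (p.1, a) ω * φ (p.2, b) ω)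

theorem Qd_meas (φ : Λ × Fin 3 → Ω → ℝ) (hφ : ∀ i, Measurable (φ i)) (N : Matrix Λ Λ ℝ)
    (a b : Fin 3) : Measurable (Qd φ N a b) := by
  unfold Qd
  exact Finset.measurable_fun_sum _ fun p _ =>
    ((hφ _).mul (hφ _)).const_mul _

omit [MeasurableSpace Ω] in
theorem Qd_le (φ : Λ × Fin 3 → Ω → ℝ) (f : Ω → ℝ) (h1 : ∀ i ω, |φ i ω| ≤ f ω)
    (N : Matrix Λ Λ ℝ) (K : ℝ) (hK : 1 ≤ K) (hc : (Fintype.card Λ : ℝ) ≤ K)
    (hN : ∀ i j, |N i j| ≤ K) (a b : Fin 3) (ω : Ω) : |Qd φ N a b ω| ≤ K ^ 3 * f ω ^ 2 := by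
  unfold Qd
  refine (Finset.abs_sum_le_sum_abs _ _).trans ?_
  have h2 : ∀ p ∈ (Finset.univ : Finset (Λ × Λ)),
      |N p.1 p.2 * (φ (p.1, a) ω * φ (p.2, b) ω)| ≤ K * f ω ^ 2 := by
    intro p _
    rw [abs_mul, abs_mul]
    have h3 : |φ (p.1, a) ω| * |φ (p.2, b) ω| ≤ f ω * f ω :=
      mul_le_mul (h1 _ ω) (h1 _ ω) (abs_nonneg _) ((abs_nonneg _).trans (h1 (p.1, a) ω))
    calc |N p.1 p.2| * (|φ (p.1, a) ω| * |φ (p.2, b) ω|) ≤ K * (f ω * f ω) :=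
          mul_le_mul (hN _ _) h3 (mul_nonneg (abs_nonneg _) (abs_nonneg _)) (by linarith)
      _ = K * f ω ^ 2 := by ring
  refine (Finset.sum_le_card_nsmul _ _ _ h2).trans ?_
  rw [nsmul_eq_mul, Finset.card_univ, Fintype.card_prod, Nat.cast_mul]
  have hc0 : (0 : ℝ) ≤ (Fintype.card Λ : ℝ) := Nat.cast_nonneg _
  have h4 : (Fintype.card Λ : ℝ) * (Fintype.card Λ : ℝ) ≤ K * K :=
    mul_le_mul hc hc hc0 (by linarith)
  calc (Fintype.card Λ : ℝ) * (Fintype.card Λ : ℝ) * (K * f ω ^ 2) ≤ K * K * (K * f ω ^ 2) :=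
        mul_le_mul_of_nonneg_right h4 (by positivity)
    _ = K ^ 3 * f ω ^ 2 := by ring

omit [Fintype Λ] in
theorem phi_int (φ : Λ × Fin 3 → Ω → ℝ) (hφ : ∀ i, Measurable (φ i)) (K : ℝ) (hK : 1 ≤ K)
    (h1 : ∀ i ω, |φ i ω| ≤ K) (x y : Λ × Fin 3) : Integrable (fun ω => φ x ω * φ y ω) P := by
  refine int_bd ((hφ x).mul (hφ y)) (K * K) fun ω => ?_
  rw [abs_mul]
  exact mul_le_mul (h1 _ ω) (h1 _ ω) (abs_nonneg _) (by linarith)

theorem Qd_E (φ : Λ × Fin 3 → Ω → ℝ) (hφ : ∀ i, Measurable (φ i)) (K β ε : ℝ) (hK : 1 ≤ K)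
    (hε : 0 ≤ ε)
    (h1 : ∀ i ω, |φ i ω| ≤ K) (hc : (Fintype.card Λ : ℝ) ≤ K) (C N : Matrix Λ Λ ℝ)
    (hN : ∀ i j, |N i j| ≤ K)
    (h2 : ∀ x y : Λ × Fin 3, |β * ∫ ω, φ x ω * φ y ω ∂P -
      (if x.2 = y.2 then C x.1 y.1 else 0)| ≤ ε) (a b : Fin 3) :
    |β * ∫ ω, Qd φ N a b ω ∂P - (if a = b then ∑ p : Λ × Λ, N p.1 p.2 * C p.1 p.2 else 0)| ≤
      K ^ 3 * ε := by
  have e1 : ∫ ω, Qd φ N a b ω ∂P =
      ∑ p : Λ × Λ, N p.1 p.2 * ∫ ω, φ (p.1, a) ω * φ (p.2, b) ω ∂P := by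
    unfold Qd
    rw [integral_finsetSum _ fun p _ => (phi_int φ hφ K hK h1 _ _).const_mul _]
    refine Finset.sum_congr rfl fun p _ => ?_
    exact integral_const_mul _ _
  have e2 : (if a = b then ∑ p : Λ × Λ, N p.1 p.2 * C p.1 p.2 else 0) =
      ∑ p : Λ × Λ, N p.1 p.2 * (if a = b then C p.1 p.2 else 0) := by
    split_ifs
    · rfl
    · simp
  rw [e1, e2, Finset.mul_sum, ← Finset.sum_sub_distrib]
  refine (Finset.abs_sum_le_sum_abs _ _).trans ?_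
  have h3 : ∀ p ∈ (Finset.univ : Finset (Λ × Λ)),
      |β * (N p.1 p.2 * ∫ ω, φ (p.1, a) ω * φ (p.2, b) ω ∂P) -
        N p.1 p.2 * (if a = b then C p.1 p.2 else 0)| ≤ K * ε := by
    intro p _
    have e : β * (N p.1 p.2 * ∫ ω, φ (p.1, a) ω * φ (p.2, b) ω ∂P) -
        N p.1 p.2 * (if a = b then C p.1 p.2 else 0) =
        N p.1 p.2 * (β * (∫ ω, φ (p.1, a) ω * φ (p.2, b) ω ∂P) -
          (if a = b then C p.1 p.2 else 0)) := by ring
    rw [e, abs_mul]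
    exact mul_le_mul (hN _ _) (h2 (p.1, a) (p.2, b)) (abs_nonneg _) (by linarith)
  refine (Finset.sum_le_card_nsmul _ _ _ h3).trans ?_
  rw [nsmul_eq_mul, Finset.card_univ, Fintype.card_prod, Nat.cast_mul]
  have hc0 : (0 : ℝ) ≤ (Fintype.card Λ : ℝ) := Nat.cast_nonneg _
  have h4 : (Fintype.card Λ : ℝ) * (Fintype.card Λ : ℝ) ≤ K * K :=
    mul_le_mul hc hc hc0 (by linarith)
  calc (Fintype.card Λ : ℝ) * (Fintype.card Λ : ℝ) * (K * ε) ≤ K * K * (K * ε) :=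
        mul_le_mul_of_nonneg_right h4 (by positivity)
    _ = K ^ 3 * ε := by ring

theorem Qd_E4 (φ : Λ × Fin 3 → Ω → ℝ) (hφ : ∀ i, Measurable (φ i)) (K β ε : ℝ) (hK : 1 ≤ K)
    (hε : 0 ≤ ε)
    (h1 : ∀ i ω, |φ i ω| ≤ K) (hc : (Fintype.card Λ : ℝ) ≤ K) (C B : Matrix Λ Λ ℝ)
    (hN : ∀ i j, |B i j| ≤ K)
    (h2 : ∀ x y z w : Λ × Fin 3, |β ^ 2 * ∫ ω, φ x ω * φ y ω * φ z ω * φ w ω ∂P -
    ((if x.2 = y.2 then C x.1 y.1 else 0) * (if z.2 = w.2 then C z.1 w.1 else 0) +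
     (if x.2 = z.2 then C x.1 z.1 else 0) * (if y.2 = w.2 then C y.1 w.1 else 0) +
     (if x.2 = w.2 then C x.1 w.1 else 0) * (if y.2 = z.2 then C y.1 z.1 else 0))| ≤ ε) :
    |β ^ 2 * ∫ ω, Qd φ B 0 1 ω ^ 2 ∂P -
      ∑ p : Λ × Λ, ∑ q : Λ × Λ, B p.1 p.2 * B q.1 q.2 * (C p.1 q.1 * C p.2 q.2)| ≤
      K ^ 6 * ε := by
  have hint : ∀ x y z w : Λ × Fin 3, Integrable (fun ω => φ x ω * φ y ω * φ z ω * φ w ω) P := by
    intro x y z w
    refine int_bd ((((hφ x).mul (hφ y)).mul (hφ z)).mul (hφ w)) (K * K * K * K) fun ω => ?_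
    rw [abs_mul, abs_mul, abs_mul]
    have hx := h1 x ω
    have hy := h1 y ω
    have hz := h1 z ω
    have hw := h1 w ω
    have hK0 : 0 ≤ K := by linarith
    have s1 : |φ x ω| * |φ y ω| ≤ K * K := mul_le_mul hx hy (abs_nonneg _) hK0
    have s2 : |φ x ω| * |φ y ω| * |φ z ω| ≤ K * K * K :=
      mul_le_mul s1 hz (abs_nonneg _) (by positivity)
    exact mul_le_mul s2 hw (abs_nonneg _) (by positivity)
  have e0 : ∀ ω, Qd φ B 0 1 ω ^ 2 = ∑ p : Λ × Λ, ∑ q : Λ × Λ, (B p.1 p.2 * B q.1 q.2) *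
      (φ (p.1, 0) ω * φ (p.2, 1) ω * φ (q.1, 0) ω * φ (q.2, 1) ω) := by
    intro ω
    unfold Qd
    rw [sq, Finset.sum_mul_sum]
    refine Finset.sum_congr rfl fun p _ => Finset.sum_congr rfl fun q _ => ?_
    ring
  have e1 : ∫ ω, Qd φ B 0 1 ω ^ 2 ∂P = ∑ p : Λ × Λ, ∑ q : Λ × Λ, (B p.1 p.2 * B q.1 q.2) *
      ∫ ω, φ (p.1, 0) ω * φ (p.2, 1) ω * φ (q.1, 0) ω * φ (q.2, 1) ω ∂P := by
    simp only [e0]
    rw [integral_finsetSum _ fun p _ => integrable_finsetSum _ fun q _ => (hint _ _ _ _).const_mul _]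
    refine Finset.sum_congr rfl fun p _ => ?_
    rw [integral_finsetSum _ fun q _ => (hint _ _ _ _).const_mul _]
    refine Finset.sum_congr rfl fun q _ => ?_
    exact integral_const_mul _ _
  rw [e1, Finset.mul_sum, ← Finset.sum_sub_distrib]
  have hK0 : 0 ≤ K := by linarith
  have hc0 : (0 : ℝ) ≤ (Fintype.card Λ : ℝ) := Nat.cast_nonneg _
  have h4 : (Fintype.card Λ : ℝ) * (Fintype.card Λ : ℝ) ≤ K * K :=
    mul_le_mul hc hc hc0 hK0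
  have h3 : ∀ p ∈ (Finset.univ : Finset (Λ × Λ)),
      |β ^ 2 * ∑ q : Λ × Λ, (B p.1 p.2 * B q.1 q.2) *
        ∫ ω, φ (p.1, 0) ω * φ (p.2, 1) ω * φ (q.1, 0) ω * φ (q.2, 1) ω ∂P -
        ∑ q : Λ × Λ, B p.1 p.2 * B q.1 q.2 * (C p.1 q.1 * C p.2 q.2)| ≤ K * K * (K * K * ε) := by
    intro p _
    rw [Finset.mul_sum, ← Finset.sum_sub_distrib]
    refine (Finset.abs_sum_le_sum_abs _ _).trans ?_
    have h5 : ∀ q ∈ (Finset.univ : Finset (Λ × Λ)),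
        |β ^ 2 * ((B p.1 p.2 * B q.1 q.2) *
          ∫ ω, φ (p.1, 0) ω * φ (p.2, 1) ω * φ (q.1, 0) ω * φ (q.2, 1) ω ∂P) -
        B p.1 p.2 * B q.1 q.2 * (C p.1 q.1 * C p.2 q.2)| ≤ K * K * ε := by
      intro q _
      have e : β ^ 2 * ((B p.1 p.2 * B q.1 q.2) *
          ∫ ω, φ (p.1, 0) ω * φ (p.2, 1) ω * φ (q.1, 0) ω * φ (q.2, 1) ω ∂P) -
          B p.1 p.2 * B q.1 q.2 * (C p.1 q.1 * C p.2 q.2) =
          (B p.1 p.2 * B q.1 q.2) * (β ^ 2 *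
          (∫ ω, φ (p.1, 0) ω * φ (p.2, 1) ω * φ (q.1, 0) ω * φ (q.2, 1) ω ∂P) -
          (C p.1 q.1 * C p.2 q.2)) := by ring
      rw [e, abs_mul, abs_mul]
      have h6 := h2 (p.1, 0) (p.2, 1) (q.1, 0) (q.2, 1)
      have e6 : ((if ((p.1, 0) : Λ × Fin 3).2 = ((p.2, 1) : Λ × Fin 3).2 then
            C ((p.1, 0) : Λ × Fin 3).1 ((p.2, 1) : Λ × Fin 3).1 else 0) *
          (if ((q.1, 0) : Λ × Fin 3).2 = ((q.2, 1) : Λ × Fin 3).2 then
            C ((q.1, 0) : Λ × Fin 3).1 ((q.2, 1) : Λ × Fin 3).1 else 0) +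
          (if ((p.1, 0) : Λ × Fin 3).2 = ((q.1, 0) : Λ × Fin 3).2 then
            C ((p.1, 0) : Λ × Fin 3).1 ((q.1, 0) : Λ × Fin 3).1 else 0) *
          (if ((p.2, 1) : Λ × Fin 3).2 = ((q.2, 1) : Λ × Fin 3).2 then
            C ((p.2, 1) : Λ × Fin 3).1 ((q.2, 1) : Λ × Fin 3).1 else 0) +
          (if ((p.1, 0) : Λ × Fin 3).2 = ((q.2, 1) : Λ × Fin 3).2 then
            C ((p.1, 0) : Λ × Fin 3).1 ((q.2, 1) : Λ × Fin 3).1 else 0) *
          (if ((p.2, 1) : Λ × Fin 3).2 = ((q.1, 0) : Λ × Fin 3).2 then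
            C ((p.2, 1) : Λ × Fin 3).1 ((q.1, 0) : Λ × Fin 3).1 else 0) : ℝ) =
          C p.1 q.1 * C p.2 q.2 := by
        simp
      rw [e6] at h6
      exact mul_le_mul (mul_le_mul (hN _ _) (hN _ _) (abs_nonneg _) hK0) h6 (abs_nonneg _)
        (by positivity)
    refine (Finset.sum_le_card_nsmul _ _ _ h5).trans ?_
    rw [nsmul_eq_mul, Finset.card_univ, Fintype.card_prod, Nat.cast_mul]
    exact mul_le_mul_of_nonneg_right h4 (by positivity)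
  refine (Finset.abs_sum_le_sum_abs _ _).trans ?_
  refine (Finset.sum_le_card_nsmul _ _ _ h3).trans ?_
  rw [nsmul_eq_mul, Finset.card_univ, Fintype.card_prod, Nat.cast_mul]
  calc (Fintype.card Λ : ℝ) * (Fintype.card Λ : ℝ) * (K * K * (K * K * ε)) ≤
        K * K * (K * K * (K * K * ε)) := mul_le_mul_of_nonneg_right h4 (by positivity)
    _ = K ^ 6 * ε := by ring

end main

theorem tlp : S_LP := by
  intro Ω _ P _ Λ _ _ φ f e1 e2 A B C R s0 β K M p ε hK hβ hM hp hε hε1 hφ he1 he2 hf hφf hfK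
    hcard hC hB hb hPp hMε h2 h4 hE1 hE2
  have hK0 : 0 ≤ K := by linarith
  have hβ0 : 0 ≤ β := by linarith
  -- f is nonnegative
  have hf0 : ∀ ω, 0 ≤ f ω := by
    intro ω
    have h := (abs_nonneg _).trans (hE1 ω)
    by_contra hneg
    push Not at hneg
    have h3 : f ω ^ 3 < 0 := by
      have : f ω ^ 3 = f ω * f ω ^ 2 := by ring
      have hne : f ω ≠ 0 := hneg.ne
      rw [this]
      exact mul_neg_of_neg_of_pos hneg (by positivity)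
    nlinarith
  have hφK : ∀ i ω, |φ i ω| ≤ K := fun i ω => (hφf i ω).trans (hfK ω)
  -- moments of f
  have hm3 : β * ∫ ω, f ω ^ 3 ∂P ≤ K ^ 3 * ε := by
    have h := mom f hf K M p hK0 hM hf0 hfK hPp 3
    have hK3 : 1 ≤ K ^ 3 := one_le_pow₀ hK
    have h5 : β * M ^ 3 + β * p ≤ ε := by
      have : 0 ≤ β ^ 2 * M ^ 5 := by positivity
      have : 0 ≤ β ^ 2 * p := by positivity
      nlinarith
    calc β * ∫ ω, f ω ^ 3 ∂P ≤ β * (M ^ 3 + K ^ 3 * p) := mul_le_mul_of_nonneg_left h hβ0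
      _ = 1 * (β * M ^ 3) + K ^ 3 * (β * p) := by ring
      _ ≤ K ^ 3 * (β * M ^ 3) + K ^ 3 * (β * p) := by
          have := mul_le_mul_of_nonneg_right hK3 (by positivity : 0 ≤ β * M ^ 3)
          linarith
      _ = K ^ 3 * (β * M ^ 3 + β * p) := by ring
      _ ≤ K ^ 3 * ε := mul_le_mul_of_nonneg_left h5 (by positivity)
  have hm5 : β ^ 2 * ∫ ω, f ω ^ 5 ∂P ≤ K ^ 5 * ε := by
    have h := mom f hf K M p hK0 hM hf0 hfK hPp 5
    have hK5 : 1 ≤ K ^ 5 := one_le_pow₀ hK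
    have h5 : β ^ 2 * M ^ 5 + β ^ 2 * p ≤ ε := by
      have : 0 ≤ β * M ^ 3 := by positivity
      have : 0 ≤ β * p := by positivity
      nlinarith
    calc β ^ 2 * ∫ ω, f ω ^ 5 ∂P ≤ β ^ 2 * (M ^ 5 + K ^ 5 * p) :=
          mul_le_mul_of_nonneg_left h (by positivity)
      _ = 1 * (β ^ 2 * M ^ 5) + K ^ 5 * (β ^ 2 * p) := by ring
      _ ≤ K ^ 5 * (β ^ 2 * M ^ 5) + K ^ 5 * (β ^ 2 * p) := by
          have := mul_le_mul_of_nonneg_right hK5 (by positivity : 0 ≤ β ^ 2 * M ^ 5)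
          linarith
      _ = K ^ 5 * (β ^ 2 * M ^ 5 + β ^ 2 * p) := by ring
      _ ≤ K ^ 5 * ε := mul_le_mul_of_nonneg_left h5 (by positivity)
  have hfj : ∀ j : ℕ, Integrable (fun ω => f ω ^ j) P := fun j =>
    int_bd (hf.pow_const j) (K ^ j) fun ω => by
      rw [abs_of_nonneg (pow_nonneg (hf0 ω) j)]
      exact pow_le_pow_left₀ (hf0 ω) (hfK ω) j
  -- the bilinear forms
  have hQint : ∀ (N : Matrix Λ Λ ℝ), (∀ i j, |N i j| ≤ K) → ∀ a b, Integrable (Qd φ N a b) P := by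
    intro N hN a b
    refine int_bd (Qd_meas φ hφ N a b) (K ^ 3 * K ^ 2) fun ω => ?_
    refine (Qd_le φ f hφf N K hK hcard hN a b ω).trans ?_
    exact mul_le_mul_of_nonneg_left (pow_le_pow_left₀ (hf0 ω) (hfK ω) 2) (by positivity)
  have hA : ∀ i j, |A i j| ≤ K := fun i j => (hb i j).1
  have hBb : ∀ i j, |B i j| ≤ K := fun i j => (hb i j).2.1
  have hR : ∀ i j, |R i j| ≤ K := fun i j => (hb i j).2.2.2
  -- rewriting of the hypotheses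
  have hE1' : ∀ ω, |e1 ω + Qd φ B 0 1 ω| ≤ K * f ω ^ 3 := by
    intro ω
    have e : Qd φ B 0 1 ω = ∑ x, ∑ y, B x y * φ (x, 0) ω * φ (y, 1) ω := by
      unfold Qd
      rw [Fintype.sum_prod_type]
      refine Finset.sum_congr rfl fun x _ => Finset.sum_congr rfl fun y _ => ?_
      ring
    rw [e]
    exact hE1 ω
  have hE2' : ∀ ω, |e2 ω - s0 - (1 / 2) * (Qd φ A 0 0 ω + Qd φ A 1 1 ω) +
      (1 / 8) * Qd φ R 2 2 ω| ≤ K * f ω ^ 3 := by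
    intro ω
    have ea : Qd φ A 0 0 ω + Qd φ A 1 1 ω =
        ∑ x, ∑ y, A x y * (φ (x, 0) ω * φ (y, 0) ω + φ (x, 1) ω * φ (y, 1) ω) := by
      unfold Qd
      rw [← Finset.sum_add_distrib, Fintype.sum_prod_type]
      refine Finset.sum_congr rfl fun x _ => Finset.sum_congr rfl fun y _ => ?_
      ring
    have er : Qd φ R 2 2 ω = ∑ x, ∑ y, R x y * φ (x, 2) ω * φ (y, 2) ω := by
      unfold Qd
      rw [Fintype.sum_prod_type]
      refine Finset.sum_congr rfl fun x _ => Finset.sum_congr rfl fun y _ => ?_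
      ring
    rw [ea, er]
    exact hE2 ω
  set q : Ω → ℝ := Qd φ B 0 1 with hq
  have hqint : Integrable q P := hQint B hBb 0 1
  have hqm : Measurable q := Qd_meas φ hφ B 0 1
  have hqle : ∀ ω, |q ω| ≤ K ^ 3 * f ω ^ 2 := Qd_le φ f hφf B K hK hcard hBb 0 1
  set r1 : Ω → ℝ := fun ω => e1 ω + q ω with hr1
  have hr1m : Measurable r1 := he1.add hqm
  have hr1i : Integrable r1 P := int_bd hr1m (K * K ^ 3) fun ω =>
    (hE1' ω).trans (mul_le_mul_of_nonneg_left (pow_le_pow_left₀ (hf0 ω) (hfK ω) 3) hK0)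
  have hr1E : |β * ∫ ω, r1 ω ∂P| ≤ K ^ 4 * ε := by
    have h := abs_int_le (P := P) r1 (fun ω => K * f ω ^ 3) ((hfj 3).const_mul K) hE1'
    rw [integral_const_mul] at h
    rw [abs_mul, abs_of_nonneg hβ0]
    calc β * |∫ ω, r1 ω ∂P| ≤ β * (K * ∫ ω, f ω ^ 3 ∂P) := mul_le_mul_of_nonneg_left h hβ0
      _ = K * (β * ∫ ω, f ω ^ 3 ∂P) := by ring
      _ ≤ K * (K ^ 3 * ε) := mul_le_mul_of_nonneg_left hm3 hK0
      _ = K ^ 4 * ε := by ring
  -- the mean of e1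
  have hI1 : β * ∫ ω, e1 ω ∂P = β * (∫ ω, r1 ω ∂P) - β * ∫ ω, q ω ∂P := by
    have e : ∫ ω, e1 ω ∂P = ∫ ω, (r1 ω - q ω) ∂P := by
      congr 1
      funext ω
      simp only [hr1]
      ring
    rw [e, integral_sub hr1i hqint]
    ring
  have hqE : |β * ∫ ω, q ω ∂P| ≤ K ^ 3 * ε := by
    have h := Qd_E (P := P) φ hφ K β ε hK hε hφK hcard C B hBb h2 0 1
    simpa using h
  have hI1le : |β * ∫ ω, e1 ω ∂P| ≤ 2 * K ^ 4 * ε := by
    rw [hI1]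
    have h := abs_sub (β * (∫ ω, r1 ω ∂P)) (β * ∫ ω, q ω ∂P)
    have h34 : K ^ 3 * ε ≤ K ^ 4 * ε :=
      mul_le_mul_of_nonneg_right (pow_le_pow_right₀ hK (by norm_num)) hε
    linarith
  have hI1sq : (β * ∫ ω, e1 ω ∂P) ^ 2 ≤ 4 * (K ^ 8 * ε) := by
    have h := pow_le_pow_left₀ (abs_nonneg _) hI1le 2
    rw [sq_abs] at h
    have hee : ε * ε ≤ ε := by nlinarith
    calc (β * ∫ ω, e1 ω ∂P) ^ 2 ≤ (2 * K ^ 4 * ε) ^ 2 := h
      _ = 4 * K ^ 8 * (ε * ε) := by ring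
      _ ≤ 4 * K ^ 8 * ε := mul_le_mul_of_nonneg_left hee (by positivity)
      _ = 4 * (K ^ 8 * ε) := by ring
  -- the second moment of e1
  have hq2i : Integrable (fun ω => q ω ^ 2) P := by
    refine int_bd (hqm.pow_const 2) ((K ^ 3 * K ^ 2) ^ 2) fun ω => ?_
    rw [abs_pow]
    refine pow_le_pow_left₀ (abs_nonneg _) ((hqle ω).trans ?_) 2
    exact mul_le_mul_of_nonneg_left (pow_le_pow_left₀ (hf0 ω) (hfK ω) 2) (by positivity)
  have hdiff : ∀ ω, |e1 ω ^ 2 - q ω ^ 2| ≤ 3 * K ^ 4 * f ω ^ 5 := by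
    intro ω
    have hrω : |r1 ω| ≤ K * f ω ^ 3 := hE1' ω
    have hqω := hqle ω
    have e : e1 ω ^ 2 - q ω ^ 2 = r1 ω * (r1 ω - 2 * q ω) := by
      simp only [hr1]; ring
    rw [e, abs_mul]
    have h0 := hf0 ω
    have hk := hfK ω
    have h5 : |r1 ω - 2 * q ω| ≤ 3 * K ^ 3 * f ω ^ 2 := by
      have h6 := abs_sub (r1 ω) (2 * q ω)
      rw [abs_mul, abs_of_pos (by norm_num : (0:ℝ) < 2)] at h6
      have h7 : K * f ω ^ 3 ≤ K ^ 3 * f ω ^ 2 := by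
        calc K * f ω ^ 3 = K * f ω ^ 2 * f ω := by ring
          _ ≤ K * f ω ^ 2 * K := mul_le_mul_of_nonneg_left hk (by positivity)
          _ = K ^ 2 * f ω ^ 2 := by ring
          _ ≤ K ^ 3 * f ω ^ 2 :=
            mul_le_mul_of_nonneg_right (pow_le_pow_right₀ hK (by norm_num)) (by positivity)
      linarith
    calc |r1 ω| * |r1 ω - 2 * q ω| ≤ (K * f ω ^ 3) * (3 * K ^ 3 * f ω ^ 2) :=
          mul_le_mul hrω h5 (abs_nonneg _) (by positivity)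
      _ = 3 * K ^ 4 * f ω ^ 5 := by ring
  have hdm : Measurable (fun ω => e1 ω ^ 2 - q ω ^ 2) := (he1.pow_const 2).sub (hqm.pow_const 2)
  have hdi : Integrable (fun ω => e1 ω ^ 2 - q ω ^ 2) P :=
    int_bd hdm (3 * K ^ 4 * K ^ 5) fun ω => (hdiff ω).trans
      (mul_le_mul_of_nonneg_left (pow_le_pow_left₀ (hf0 ω) (hfK ω) 5) (by positivity))
  have hI2 : ∫ ω, e1 ω ^ 2 ∂P = (∫ ω, (e1 ω ^ 2 - q ω ^ 2) ∂P) + ∫ ω, q ω ^ 2 ∂P := by
    rw [← integral_add hdi hq2i]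
    congr 1
    funext ω
    ring
  have hI2d : |β ^ 2 * ∫ ω, (e1 ω ^ 2 - q ω ^ 2) ∂P| ≤ 3 * (K ^ 9 * ε) := by
    have h := abs_int_le (P := P) _ (fun ω => 3 * K ^ 4 * f ω ^ 5) ((hfj 5).const_mul _) hdiff
    rw [integral_const_mul] at h
    rw [abs_mul, abs_of_nonneg (by positivity : 0 ≤ β ^ 2)]
    calc β ^ 2 * |∫ ω, (e1 ω ^ 2 - q ω ^ 2) ∂P| ≤ β ^ 2 * (3 * K ^ 4 * ∫ ω, f ω ^ 5 ∂P) :=
          mul_le_mul_of_nonneg_left h (by positivity)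
      _ = 3 * K ^ 4 * (β ^ 2 * ∫ ω, f ω ^ 5 ∂P) := by ring
      _ ≤ 3 * K ^ 4 * (K ^ 5 * ε) := mul_le_mul_of_nonneg_left hm5 (by positivity)
      _ = 3 * (K ^ 9 * ε) := by ring
  have hq4 := Qd_E4 (P := P) φ hφ K β ε hK hε hφK hcard C B hBb h4
  rw [← hq] at hq4
  -- the mean of e2
  set r2 : Ω → ℝ := fun ω => e2 ω - s0 - (1 / 2) * (Qd φ A 0 0 ω + Qd φ A 1 1 ω) +
      (1 / 8) * Qd φ R 2 2 ω with hr2
  have hr2m : Measurable r2 :=
    (((he2.sub_const s0).sub (((Qd_meas φ hφ A 0 0).add (Qd_meas φ hφ A 1 1)).const_mul _))).add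
      ((Qd_meas φ hφ R 2 2).const_mul _)
  have hr2i : Integrable r2 P := int_bd hr2m (K * K ^ 3) fun ω =>
    (hE2' ω).trans (mul_le_mul_of_nonneg_left (pow_le_pow_left₀ (hf0 ω) (hfK ω) 3) hK0)
  have hr2E : |β * ∫ ω, r2 ω ∂P| ≤ K ^ 4 * ε := by
    have h := abs_int_le (P := P) r2 (fun ω => K * f ω ^ 3) ((hfj 3).const_mul K) hE2'
    rw [integral_const_mul] at h
    rw [abs_mul, abs_of_nonneg hβ0]
    calc β * |∫ ω, r2 ω ∂P| ≤ β * (K * ∫ ω, f ω ^ 3 ∂P) := mul_le_mul_of_nonneg_left h hβ0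
      _ = K * (β * ∫ ω, f ω ^ 3 ∂P) := by ring
      _ ≤ K * (K ^ 3 * ε) := mul_le_mul_of_nonneg_left hm3 hK0
      _ = K ^ 4 * ε := by ring
  have hA0 := hQint A hA 0 0
  have hA1 := hQint A hA 1 1
  have hR2 := hQint R hR 2 2
  have hI3 : β * ∫ ω, e2 ω ∂P = β * (∫ ω, r2 ω ∂P) + β * s0 +
      (1 / 2) * (β * (∫ ω, Qd φ A 0 0 ω ∂P) + β * ∫ ω, Qd φ A 1 1 ω ∂P) -
      (1 / 8) * (β * ∫ ω, Qd φ R 2 2 ω ∂P) := by
    have e : ∫ ω, e2 ω ∂P = ∫ ω, (((r2 ω + s0) + (1 / 2) * (Qd φ A 0 0 ω + Qd φ A 1 1 ω)) -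
        (1 / 8) * Qd φ R 2 2 ω) ∂P := by
      congr 1
      funext ω
      simp only [hr2]
      ring
    have i1 : Integrable (fun ω => r2 ω + s0) P := hr2i.add (integrable_const s0)
    have i2 : Integrable (fun ω => (1 / 2) * (Qd φ A 0 0 ω + Qd φ A 1 1 ω)) P :=
      (hA0.add hA1).const_mul _
    have i3 : Integrable (fun ω => (1 / 8) * Qd φ R 2 2 ω) P := hR2.const_mul _
    have i4 : Integrable (fun ω => (r2 ω + s0) + (1 / 2) * (Qd φ A 0 0 ω + Qd φ A 1 1 ω)) P :=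
      i1.add i2
    rw [e, integral_sub i4 i3, integral_add i1 i2, integral_add hr2i (integrable_const s0),
      integral_const_mul, integral_const_mul, integral_add hA0 hA1]
    simp only [integral_const, probReal_univ, smul_eq_mul, one_mul]
    ring
  have hTA0 : |β * ∫ ω, Qd φ A 0 0 ω ∂P - (C * A).trace| ≤ K ^ 3 * ε := by
    have h := Qd_E (P := P) φ hφ K β ε hK hε hφK hcard C A hA h2 0 0
    rw [if_pos rfl, ← tr2 C A hC] at h
    exact h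
  have hTA1 : |β * ∫ ω, Qd φ A 1 1 ω ∂P - (C * A).trace| ≤ K ^ 3 * ε := by
    have h := Qd_E (P := P) φ hφ K β ε hK hε hφK hcard C A hA h2 1 1
    rw [if_pos rfl, ← tr2 C A hC] at h
    exact h
  have hTR : |β * ∫ ω, Qd φ R 2 2 ω ∂P - (C * R).trace| ≤ K ^ 3 * ε := by
    have h := Qd_E (P := P) φ hφ K β ε hK hε hφK hcard C R hR h2 2 2
    rw [if_pos rfl, ← tr2 C R hC] at h
    exact h
  have hT4 := tr4 C B hC hB
  set main : ℝ := ∑ p : Λ × Λ, ∑ q : Λ × Λ, B p.1 p.2 * B q.1 q.2 * (C p.1 q.1 * C p.2 q.2)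
    with hmain
  have hfin : β * ∫ ω, e2 ω ∂P - β ^ 2 * (∫ ω, e1 ω ^ 2 ∂P - (∫ ω, e1 ω ∂P) ^ 2) -
      (β * s0 + (C * A).trace + (C * B * C * B).trace - (1 / 8) * (C * R).trace) =
      β * (∫ ω, r2 ω ∂P) + (1 / 2) * (β * ∫ ω, Qd φ A 0 0 ω ∂P - (C * A).trace) +
      (1 / 2) * (β * ∫ ω, Qd φ A 1 1 ω ∂P - (C * A).trace) -
      (1 / 8) * (β * ∫ ω, Qd φ R 2 2 ω ∂P - (C * R).trace) -
      β ^ 2 * ∫ ω, (e1 ω ^ 2 - q ω ^ 2) ∂P - (β ^ 2 * ∫ ω, q ω ^ 2 ∂P - main) +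
      (β * ∫ ω, e1 ω ∂P) ^ 2 := by
    rw [hI3, hI2, hT4]
    ring
  rw [hfin]
  set X : ℝ := K ^ 20 * ε with hX
  have hX0 : 0 ≤ X := by positivity
  have hpw : ∀ j : ℕ, j ≤ 20 → K ^ j * ε ≤ X := fun j hj =>
    mul_le_mul_of_nonneg_right (pow_le_pow_right₀ hK hj) hε
  have p3 := hpw 3 (by norm_num)
  have p4 := hpw 4 (by norm_num)
  have p6 := hpw 6 (by norm_num)
  have p8 := hpw 8 (by norm_num)
  have p9 := hpw 9 (by norm_num)
  have hsq0 : 0 ≤ (β * ∫ ω, e1 ω ∂P) ^ 2 := sq_nonneg _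
  rw [abs_le] at hr2E hTA0 hTA1 hTR hI2d hq4
  have hgoal : 1000 * K ^ 20 * ε = 1000 * X := by rw [hX]; ring
  rw [hgoal, abs_le]
  constructor <;> linarith [hr2E.1, hr2E.2, hTA0.1, hTA0.2, hTA1.1, hTA1.2, hTR.1, hTR.2, hI2d.1,
    hI2d.2, hq4.1, hq4.2]

end

end Pool.Agent.H71.AF
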